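import Mathlib
import Pool.Agent.W751.RR.Stm

set_option autoImplicit false

open MeasureTheory Filter Topology ProbabilityTheory

namespace Pool.Agent.W90.RR.AR2

open Pool.Agent.W751.RR

lemma vol_cb (ρ : ℝ) (hρ : 0 ≤ ρ) (w : ℂ) :
    volume (Metric.closedBall w ρ) = ENNReal.ofReal (Real.pi * ρ ^ 2) := by
  rw [Complex.volume_closedBall, mul_comm Real.pi, ENNReal.ofReal_mul (by positivity),
    ENNReal.ofReal_pow hρ]
  congr 1
  rw [ENNReal.ofReal]
  congr 1
  rw [← NNReal.coe_real_pi, Real.toNNReal_coe]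

lemma prob (ρ : ℝ) (hρ : 0 < ρ) : IsProbabilityMeasure (m1 ρ) := by
  constructor
  unfold m1
  rw [Measure.smul_apply, Measure.restrict_apply_univ, smul_eq_mul]
  rw [vol_cb ρ hρ.le]
  apply ENNReal.inv_mul_cancel
  · simp; positivity
  · simp

lemma small (w : ℂ) (ε : ℝ) :
    ∫⁻ z in {z : ℂ | ‖w - z‖ < ε}, ENNReal.ofReal (‖w - z‖⁻¹) ≤
      ENNReal.ofReal (2 * Real.pi * ε) := by
  set g : ℂ → ENNReal := fun u => if ‖u‖ < ε then ENNReal.ofReal (‖u‖⁻¹) else 0 with hg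
  have h1 : ∫⁻ z in {z : ℂ | ‖w - z‖ < ε}, ENNReal.ofReal (‖w - z‖⁻¹) = ∫⁻ z, g (w - z) := by
    rw [← lintegral_indicator]
    · congr with z
    · exact measurableSet_lt (by fun_prop) (by fun_prop)
  rw [h1, lintegral_sub_left_eq_self g w, ← Complex.lintegral_comp_polarCoord_symm g]
  calc ∫⁻ p in polarCoord.target, ENNReal.ofReal p.1 • g (Complex.polarCoord.symm p)
      ≤ ∫⁻ p in polarCoord.target,
          Set.indicator (Set.Ioo 0 ε ×ˢ Set.Ioo (-Real.pi) Real.pi) 1 p := by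
        apply setLIntegral_mono' polarCoord.open_target.measurableSet
        intro p hp
        rw [polarCoord_target] at hp
        obtain ⟨hp1, hp2⟩ := hp
        have hp1' : 0 < p.1 := hp1
        have hn : ‖Complex.polarCoord.symm p‖ = p.1 := by
          rw [Complex.norm_polarCoord_symm, abs_of_pos hp1']
        by_cases h : p.1 < ε
        · have hmem : p ∈ (Set.Ioo 0 ε ×ˢ Set.Ioo (-Real.pi) Real.pi : Set (ℝ × ℝ)) :=
            ⟨⟨hp1', h⟩, hp2⟩
          rw [Set.indicator_of_mem hmem]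
          simp only [hg, hn, h, if_true, smul_eq_mul, Pi.one_apply]
          rw [← ENNReal.ofReal_mul hp1'.le, mul_inv_cancel₀ hp1'.ne']
          simp
        · have : g (Complex.polarCoord.symm p) = 0 := by
            simp only [hg]
            rw [hn, if_neg h]
          rw [this]
          simp
    _ ≤ ∫⁻ p, Set.indicator (Set.Ioo 0 ε ×ˢ Set.Ioo (-Real.pi) Real.pi) 1 p :=
        setLIntegral_le_lintegral _ _
    _ = volume (Set.Ioo 0 ε ×ˢ Set.Ioo (-Real.pi) Real.pi) :=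
        lintegral_indicator_one (measurableSet_Ioo.prod measurableSet_Ioo)
    _ = ENNReal.ofReal (2 * Real.pi * ε) := by
        rw [Measure.volume_eq_prod, Measure.prod_prod, Real.volume_Ioo, Real.volume_Ioo,
          ← ENNReal.ofReal_mul' (by linarith [Real.pi_pos])]
        congr 1
        ring

lemma small1 (ρ : ℝ) (hρ : 0 < ρ) (w : ℂ) (ε : ℝ) :
    ∫⁻ z in {z : ℂ | ‖w - z‖ < ε}, ENNReal.ofReal (‖w - z‖⁻¹) ∂(m1 ρ) ≤
      ENNReal.ofReal (2 * ε / ρ ^ 2) := by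
  have hle : m1 ρ ≤ (ENNReal.ofReal (Real.pi * ρ ^ 2))⁻¹ • volume := by
    unfold m1
    rw [vol_cb ρ hρ.le]
    exact Measure.le_iff.2 fun s hs => by
      simp only [Measure.smul_apply, smul_eq_mul]
      gcongr
      exact Measure.restrict_le_self
  calc ∫⁻ z in {z : ℂ | ‖w - z‖ < ε}, ENNReal.ofReal (‖w - z‖⁻¹) ∂(m1 ρ)
      ≤ ∫⁻ z in {z : ℂ | ‖w - z‖ < ε}, ENNReal.ofReal (‖w - z‖⁻¹)
          ∂((ENNReal.ofReal (Real.pi * ρ ^ 2))⁻¹ • volume) :=
        lintegral_mono' (Measure.restrict_mono le_rfl hle) le_rfl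
    _ = (ENNReal.ofReal (Real.pi * ρ ^ 2))⁻¹ *
          ∫⁻ z in {z : ℂ | ‖w - z‖ < ε}, ENNReal.ofReal (‖w - z‖⁻¹) := by
        rw [Measure.restrict_smul, lintegral_smul_measure, smul_eq_mul]
    _ ≤ (ENNReal.ofReal (Real.pi * ρ ^ 2))⁻¹ * ENNReal.ofReal (2 * Real.pi * ε) := by
        gcongr
        exact small w ε
    _ = ENNReal.ofReal (2 * ε / ρ ^ 2) := by
        rw [← ENNReal.ofReal_inv_of_pos (by positivity), ← ENNReal.ofReal_mul (by positivity)]
        congr 1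
        field_simp

lemma meas_ball (ρ : ℝ) (hρ : 0 < ρ) (w : ℂ) (ε : ℝ) (hε : 0 ≤ ε) :
    m1 ρ {z : ℂ | ‖w - z‖ < ε} ≤ ENNReal.ofReal (ε ^ 2 / ρ ^ 2) := by
  have hs : {z : ℂ | ‖w - z‖ < ε} ⊆ Metric.closedBall w ε := by
    intro z hz
    simp only [Set.mem_ofPred_eq] at hz
    rw [Metric.mem_closedBall, dist_comm, dist_eq_norm]
    exact hz.le
  calc m1 ρ {z : ℂ | ‖w - z‖ < ε} ≤ m1 ρ (Metric.closedBall w ε) := measure_mono hs
    _ ≤ (ENNReal.ofReal (Real.pi * ρ ^ 2))⁻¹ * ENNReal.ofReal (Real.pi * ε ^ 2) := by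
        unfold m1
        rw [vol_cb ρ hρ.le, Measure.smul_apply, smul_eq_mul, ← vol_cb ε hε w]
        gcongr
        exact Measure.restrict_le_self
    _ = ENNReal.ofReal (ε ^ 2 / ρ ^ 2) := by
        rw [← ENNReal.ofReal_inv_of_pos (by positivity), ← ENNReal.ofReal_mul (by positivity)]
        congr 1
        field_simp

/-- variance of a sum over the product measure -/
lemma var1 (ρ : ℝ) (hρ : 0 < ρ) (N : ℕ) (g : ℂ → ℝ) (hg : Measurable g) (B : ℝ)
    (hB : ∀ z, |g z| ≤ B) :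
    ∫ z, ((∑ i, g (z i)) - N * ∫ x, g x ∂(m1 ρ)) ^ 2 ∂(mN ρ N) ≤
      N * ∫ x, (g x) ^ 2 ∂(m1 ρ) := by
  have := prob ρ hρ
  have : IsProbabilityMeasure (mN ρ N) := by unfold mN; infer_instance
  have hL : MemLp g 2 (m1 ρ) :=
    MemLp.of_bound hg.aestronglyMeasurable B (Eventually.of_forall fun z => by
      rw [Real.norm_eq_abs]; exact hB z)
  have hLi : ∀ i : Fin N, MemLp (fun z : Fin N → ℂ => g (z i)) 2 (mN ρ N) := fun i =>
    hL.comp_measurePreserving (measurePreserving_eval (fun _ : Fin N => m1 ρ) i)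
  have h1 := variance_sum_pi (μ := fun _ : Fin N => m1 ρ) (X := fun _ : Fin N => g) (fun _ => hL)
  rw [Finset.sum_const, Finset.card_univ, Fintype.card_fin, nsmul_eq_mul] at h1
  have hE : (Measure.pi fun _ : Fin N => m1 ρ)[∑ i : Fin N, fun ω : Fin N → ℂ => g (ω i)] =
      N * ∫ x, g x ∂(m1 ρ) := by
    have : (∑ i : Fin N, fun ω : Fin N → ℂ => g (ω i)) = fun ω => ∑ i, g (ω i) := by
      ext ω; simp
    rw [this, integral_finsetSum]
    · have : ∀ i : Fin N, ∫ ω, g (ω i) ∂(Measure.pi fun _ : Fin N => m1 ρ) =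
          ∫ x, g x ∂(m1 ρ) := by
        intro i
        have := integral_comp_eval (μ := fun _ : Fin N => m1 ρ) (i := i) (f := g)
          hg.aestronglyMeasurable
        exact this
      simp [this]
    · intro i _
      exact (hLi i).integrable (by norm_num)
  rw [variance_eq_integral, hE] at h1
  · have h2 : variance g (m1 ρ) ≤ ∫ x, (g x) ^ 2 ∂(m1 ρ) := by
      rw [variance_eq_sub hL]
      have : (m1 ρ)[g ^ 2] = ∫ x, (g x) ^ 2 ∂(m1 ρ) := rfl
      rw [this]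
      have := sq_nonneg ((m1 ρ)[g])
      linarith
    have h3 : ∫ z, ((∑ i, g (z i)) - N * ∫ x, g x ∂(m1 ρ)) ^ 2 ∂(mN ρ N) =
        N * variance g (m1 ρ) := by
      rw [← h1]
      simp only [Finset.sum_apply]
      rfl
    rw [h3]
    gcongr
  · refine (Finset.aemeasurable_sum _ fun i _ => ?_)
    exact (hLi i).aestronglyMeasurable.aemeasurable

/-- variance of a complex sum -/
lemma var2 (ρ : ℝ) (hρ : 0 < ρ) (N : ℕ) (φ : ℂ → ℂ) (hφ : Measurable φ) (B : ℝ)
    (hB : ∀ z, ‖φ z‖ ≤ B) :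
    ∫ z, ‖(∑ i, φ (z i)) - N * ∫ x, φ x ∂(m1 ρ)‖ ^ 2 ∂(mN ρ N) ≤
      N * ∫ x, ‖φ x‖ ^ 2 ∂(m1 ρ) := by
  have := prob ρ hρ
  have : IsProbabilityMeasure (mN ρ N) := by unfold mN; infer_instance
  have hI : Integrable φ (m1 ρ) :=
    (MemLp.of_bound hφ.aestronglyMeasurable B (Eventually.of_forall hB)).integrable le_rfl (q := 1)
  have hr := var1 ρ hρ N (fun z => (φ z).re) (Complex.measurable_re.comp hφ) B
    (fun z => (Complex.abs_re_le_norm _).trans (hB z))
  have hi := var1 ρ hρ N (fun z => (φ z).im) (Complex.measurable_im.comp hφ) B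
    (fun z => (Complex.abs_im_le_norm _).trans (hB z))
  have hre : ∫ x, (φ x).re ∂(m1 ρ) = (∫ x, φ x ∂(m1 ρ)).re := by
    have := integral_re hI (𝕜 := ℂ)
    simpa using this
  have him : ∫ x, (φ x).im ∂(m1 ρ) = (∫ x, φ x ∂(m1 ρ)).im := by
    have := integral_im hI (𝕜 := ℂ)
    simpa using this
  rw [hre] at hr
  rw [him] at hi
  have hB0 : 0 ≤ B := (norm_nonneg _).trans (hB 0)
  have hsq : ∀ u : ℂ, ‖u‖ ^ 2 = u.re ^ 2 + u.im ^ 2 := by
    intro u
    rw [Complex.sq_norm, Complex.normSq_apply]; ring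
  have hsum : ∀ z : Fin N → ℂ, ‖(∑ i, φ (z i)) - N * ∫ x, φ x ∂(m1 ρ)‖ ^ 2 =
      ((∑ i, (φ (z i)).re) - N * (∫ x, φ x ∂(m1 ρ)).re) ^ 2 +
      ((∑ i, (φ (z i)).im) - N * (∫ x, φ x ∂(m1 ρ)).im) ^ 2 := by
    intro z
    rw [hsq]
    simp
  have hbd : ∀ (g : ℂ → ℝ) (c : ℝ), Measurable g → (∀ z, |g z| ≤ B) →
      Integrable (fun z : Fin N → ℂ => ((∑ i, g (z i)) - c) ^ 2) (mN ρ N) := by
    intro g c hg hgB
    have hm : Measurable (fun z : Fin N → ℂ => ((∑ i, g (z i)) - c) ^ 2) := by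
      have : Measurable (fun z : Fin N → ℂ => ∑ i, g (z i)) :=
        Finset.measurable_sum _ fun i _ => hg.comp (measurable_pi_apply i)
      exact (this.sub_const c).pow_const 2
    refine (MemLp.of_bound (p := 1) hm.aestronglyMeasurable ((N * B + |c|) ^ 2)
      (Eventually.of_forall fun z => ?_)).integrable le_rfl
    rw [Real.norm_eq_abs, abs_pow]
    refine pow_le_pow_left₀ (abs_nonneg _) ?_ 2
    refine (abs_sub _ _).trans ?_
    gcongr
    refine (Finset.abs_sum_le_sum_abs _ _).trans ?_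
    refine (Finset.sum_le_sum fun i _ => hgB (z i)).trans ?_
    simp
  have hbd1 : ∀ (g : ℂ → ℝ), Measurable g → (∀ z, |g z| ≤ B) →
      Integrable (fun z : ℂ => (g z) ^ 2) (m1 ρ) := by
    intro g hg hgB
    refine (MemLp.of_bound (p := 1) (hg.pow_const 2).aestronglyMeasurable (B ^ 2)
      (Eventually.of_forall fun z => ?_)).integrable le_rfl
    rw [Real.norm_eq_abs, abs_pow]
    exact pow_le_pow_left₀ (abs_nonneg _) (hgB z) 2
  simp only [hsum]
  rw [integral_add]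
  · have : ∫ x, ‖φ x‖ ^ 2 ∂(m1 ρ) = ∫ x, (φ x).re ^ 2 ∂(m1 ρ) + ∫ x, (φ x).im ^ 2 ∂(m1 ρ) := by
      simp only [hsq]
      rw [integral_add]
      · exact hbd1 (fun z => (φ z).re) (Complex.measurable_re.comp hφ)
          (fun z => (Complex.abs_re_le_norm _).trans (hB z))
      · exact hbd1 (fun z => (φ z).im) (Complex.measurable_im.comp hφ)
          (fun z => (Complex.abs_im_le_norm _).trans (hB z))
    rw [this, mul_add]
    exact add_le_add hr hi
  · exact hbd (fun z => (φ z).re) (N * (∫ x, φ x ∂(m1 ρ)).re) (Complex.measurable_re.comp hφ)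
      (fun z => (Complex.abs_re_le_norm _).trans (hB z))
  · exact hbd (fun z => (φ z).im) (N * (∫ x, φ x ∂(m1 ρ)).im) (Complex.measurable_im.comp hφ)
      (fun z => (Complex.abs_im_le_norm _).trans (hB z))

theorem ar2 : S_AR2 := by
  intro hB hC ρ r₁ r₂ η₀ hρ hr₁ hr hη₀ hV
  obtain ⟨C, hC0, hC1, hC2⟩ := hB ρ hρ
  obtain hpot := hC ρ hρ
  refine ⟨η₀ / 2, 16 * C / η₀ ^ 2 + 2 / ρ ^ 2 + 16 / (ρ ^ 2 * η₀), by positivity,
    by positivity, ?_⟩
  intro N hN w hw1 hw2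
  have := prob ρ hρ
  have : IsProbabilityMeasure (mN ρ N) := by unfold mN; infer_instance
  have hN0 : (0 : ℝ) < N := by positivity
  have hlog : (1 / 2 : ℝ) ≤ Real.log N := by
    have h1 : Real.log 2 ≤ Real.log N :=
      Real.log_le_log (by norm_num) (by exact_mod_cast hN)
    have := Real.log_two_gt_d9
    linarith
  by_cases hNs : (N : ℝ) < 8 / (ρ ^ 2 * η₀)
  · refine prob_le_one.trans ?_
    rw [← ENNReal.ofReal_one]
    apply ENNReal.ofReal_le_ofReal
    rw [le_div_iff₀ hN0, one_mul]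
    have h1 : 0 ≤ 16 * C / η₀ ^ 2 := by positivity
    have h2 : 0 ≤ 2 / ρ ^ 2 := by positivity
    have h3 : (16 / (ρ ^ 2 * η₀)) * (1 / 2) ≤
        (16 * C / η₀ ^ 2 + 2 / ρ ^ 2 + 16 / (ρ ^ 2 * η₀)) * Real.log N := by
      gcongr
      linarith
    have h4 : (16 / (ρ ^ 2 * η₀)) * (1 / 2) = 8 / (ρ ^ 2 * η₀) := by ring
    linarith
  push Not at hNs
  set φ : ℂ → ℂ := fun z => if 1 / (N : ℝ) ≤ ‖w - z‖ then (w - z)⁻¹ else 0 with hφ
  have hms : MeasurableSet {z : ℂ | 1 / (N : ℝ) ≤ ‖w - z‖} :=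
    measurableSet_le (by fun_prop) (by fun_prop)
  have hms' : MeasurableSet {z : ℂ | ‖w - z‖ < 1 / (N : ℝ)} :=
    measurableSet_lt (by fun_prop) (by fun_prop)
  have hφm : Measurable φ :=
    Measurable.ite hms (by fun_prop) (by fun_prop)
  have hφB : ∀ z, ‖φ z‖ ≤ N := by
    intro z
    simp only [hφ]
    split_ifs with h
    · rw [norm_inv]
      have := inv_anti₀ (by positivity) h
      simpa using this
    · simp
  have hφI : Integrable φ (m1 ρ) :=
    (MemLp.of_bound (p := 1) hφm.aestronglyMeasurable N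
      (Eventually.of_forall hφB)).integrable le_rfl
  set m : ℂ := ∫ x, φ x ∂(m1 ρ) with hm
  -- the mean
  have hmV : ‖V ρ w - m‖ ≤ η₀ / 4 := by
    rw [← (hpot w).2, hm, ← integral_sub (hpot w).1 hφI]
    have h1 := norm_integral_le_lintegral_norm (μ := m1 ρ) (fun z => (w - z)⁻¹ - φ z)
    refine h1.trans ?_
    have h2 : ∫⁻ z, ENNReal.ofReal ‖(w - z)⁻¹ - φ z‖ ∂(m1 ρ) ≤
        ENNReal.ofReal (2 * (1 / (N : ℝ)) / ρ ^ 2) := by
      refine le_trans (le_of_eq ?_) (small1 ρ hρ w (1 / N))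
      rw [← lintegral_indicator hms']
      congr 1
      ext z
      by_cases h : ‖w - z‖ < 1 / (N : ℝ)
      · rw [Set.indicator_of_mem (show z ∈ {z : ℂ | ‖w - z‖ < 1 / (N : ℝ)} from h)]
        simp only [hφ]
        rw [if_neg (not_le.2 h), sub_zero, norm_inv]
      · rw [Set.indicator_of_notMem (show z ∉ {z : ℂ | ‖w - z‖ < 1 / (N : ℝ)} from h)]
        simp only [hφ]
        rw [if_pos (not_lt.1 h), sub_self]
        simp
    refine (ENNReal.toReal_mono ENNReal.ofReal_ne_top h2).trans ?_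
    rw [ENNReal.toReal_ofReal (by positivity)]
    rw [div_le_iff₀ (by positivity)] at hNs
    rw [div_le_div_iff₀ (by positivity) (by norm_num)]
    have : 2 * (1 / (N : ℝ)) * 4 = 8 / N := by ring
    rw [this, div_le_iff₀ hN0]
    nlinarith [hNs]
  have hmn : 3 * η₀ / 4 ≤ ‖m‖ := by
    have h1 := hV w hw1 hw2
    have h2 : ‖V ρ w‖ ≤ ‖V ρ w - m‖ + ‖m‖ := by
      have := norm_add_le (V ρ w - m) m
      simpa using this
    linarith
  -- second moment
  have hsec : ∫ x, ‖φ x‖ ^ 2 ∂(m1 ρ) ≤ C * Real.log N := by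
    rw [integral_eq_lintegral_of_nonneg_ae (Eventually.of_forall fun x => by positivity)
      (hφm.norm.pow_const 2).aestronglyMeasurable]
    have h1 : ∫⁻ x, ENNReal.ofReal (‖φ x‖ ^ 2) ∂(m1 ρ) ≤ ENNReal.ofReal (C * Real.log N) := by
      refine le_trans (le_of_eq ?_) (hC2 N hN w)
      rw [← lintegral_indicator hms]
      congr 1
      ext z
      by_cases h : 1 / (N : ℝ) ≤ ‖w - z‖
      · rw [Set.indicator_of_mem (show z ∈ {z : ℂ | 1 / (N : ℝ) ≤ ‖w - z‖} from h)]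
        simp only [hφ]
        rw [if_pos h, norm_inv, inv_pow]
      · rw [Set.indicator_of_notMem (show z ∉ {z : ℂ | 1 / (N : ℝ) ≤ ‖w - z‖} from h)]
        simp only [hφ]
        rw [if_neg h]
        simp
    refine (ENNReal.toReal_mono ENNReal.ofReal_ne_top h1).trans ?_
    rw [ENNReal.toReal_ofReal (by positivity)]
  have hvar := (var2 ρ hρ N φ hφm N hφB).trans (mul_le_mul_of_nonneg_left hsec hN0.le)
  rw [← hm] at hvar
  set F : (Fin N → ℂ) → ℝ := fun z => ‖(∑ i, φ (z i)) - N * m‖ ^ 2 with hF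
  have hFm : Measurable F := by
    have h1 : Measurable (fun z : Fin N → ℂ => ∑ i, φ (z i)) :=
      Finset.measurable_sum _ fun i _ => hφm.comp (measurable_pi_apply i)
    exact (h1.sub_const _).norm.pow_const 2
  have hFI : Integrable F (mN ρ N) := by
    refine (MemLp.of_bound (p := 1) hFm.aestronglyMeasurable ((N * N + ‖(N : ℂ) * m‖) ^ 2)
      (Eventually.of_forall fun z => ?_)).integrable le_rfl
    simp only [hF]
    rw [Real.norm_eq_abs, abs_of_nonneg (by positivity)]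
    refine pow_le_pow_left₀ (norm_nonneg _) ?_ 2
    refine (norm_sub_le _ _).trans ?_
    gcongr
    refine (norm_sum_le _ _).trans ?_
    refine (Finset.sum_le_sum fun i _ => hφB (z i)).trans ?_
    simp
  have hmk := mul_meas_ge_le_integral_of_nonneg (μ := mN ρ N) (f := F)
    (Eventually.of_forall fun z => by simp only [hF]; positivity) hFI ((N * η₀ / 4) ^ 2)
  have hE : mN ρ N {z | (N * η₀ / 4) ^ 2 ≤ F z} ≤
      ENNReal.ofReal (16 * C / η₀ ^ 2 * Real.log N / N) := by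
    rw [← ofReal_measureReal]
    apply ENNReal.ofReal_le_ofReal
    have h1 : (N * η₀ / 4) ^ 2 * (mN ρ N).real {z | (N * η₀ / 4) ^ 2 ≤ F z} ≤
        N * (C * Real.log N) := hmk.trans hvar
    have h2 : (0 : ℝ) < (N * η₀ / 4) ^ 2 := by positivity
    rw [← le_div_iff₀' h2] at h1
    refine h1.trans (le_of_eq ?_)
    field_simp
    ring
  have hU : mN ρ N (⋃ i, {z | ‖w - z i‖ < 1 / (N : ℝ)}) ≤
      ENNReal.ofReal (2 / ρ ^ 2 * Real.log N / N) := by
    refine (measure_iUnion_le _).trans ?_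
    have h1 : ∀ i : Fin N, mN ρ N {z | ‖w - z i‖ < 1 / (N : ℝ)} ≤
        ENNReal.ofReal ((1 / (N : ℝ)) ^ 2 / ρ ^ 2) := by
      intro i
      have h2 := (measurePreserving_eval (fun _ : Fin N => m1 ρ) i).measure_preimage
        hms'.nullMeasurableSet
      have h3 : mN ρ N {z | ‖w - z i‖ < 1 / (N : ℝ)} = m1 ρ {z : ℂ | ‖w - z‖ < 1 / (N : ℝ)} := h2
      rw [h3]
      exact meas_ball ρ hρ w (1 / N) (by positivity)
    rw [tsum_fintype]
    refine (Finset.sum_le_sum fun i _ => h1 i).trans ?_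
    rw [Finset.sum_const, Finset.card_univ, Fintype.card_fin, ← ENNReal.ofReal_nsmul]
    apply ENNReal.ofReal_le_ofReal
    rw [nsmul_eq_mul]
    have : (N : ℝ) * ((1 / (N : ℝ)) ^ 2 / ρ ^ 2) = 2 / ρ ^ 2 * (1 / 2) / N := by
      field_simp
    rw [this]
    gcongr
  have hsub : {z : Fin N → ℂ | ‖∑ i, (w - z i)⁻¹‖ < η₀ / 2 * N} ⊆
      (⋃ i, {z | ‖w - z i‖ < 1 / (N : ℝ)}) ∪ {z | (N * η₀ / 4) ^ 2 ≤ F z} := by
    intro z hz
    by_cases h : ∃ i, ‖w - z i‖ < 1 / (N : ℝ)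
    · left
      exact Set.mem_iUnion.2 h
    · right
      push Not at h
      have hz' : ‖∑ i, (w - z i)⁻¹‖ < η₀ / 2 * N := hz
      have h1 : ∑ i, φ (z i) = ∑ i, (w - z i)⁻¹ := by
        refine Finset.sum_congr rfl fun i _ => ?_
        simp only [hφ]
        rw [if_pos (h i)]
      change (N * η₀ / 4) ^ 2 ≤ ‖(∑ i, φ (z i)) - N * m‖ ^ 2
      refine pow_le_pow_left₀ (by positivity) ?_ 2
      rw [h1]
      have h2 : ‖(N : ℂ) * m‖ ≤ ‖∑ i, (w - z i)⁻¹‖ + ‖(∑ i, (w - z i)⁻¹) - N * m‖ := by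
        have := norm_sub_le (∑ i, (w - z i)⁻¹) ((∑ i, (w - z i)⁻¹) - N * m)
        simpa using this
      have h3 : ‖(N : ℂ) * m‖ = N * ‖m‖ := by
        rw [norm_mul]
        simp
      have h4 : (N : ℝ) * (3 * η₀ / 4) ≤ N * ‖m‖ := by gcongr
      nlinarith
  calc mN ρ N {z | ‖∑ i, (w - z i)⁻¹‖ < η₀ / 2 * N}
      ≤ mN ρ N ((⋃ i, {z | ‖w - z i‖ < 1 / (N : ℝ)}) ∪ {z | (N * η₀ / 4) ^ 2 ≤ F z}) :=
        measure_mono hsub
    _ ≤ mN ρ N (⋃ i, {z | ‖w - z i‖ < 1 / (N : ℝ)}) + mN ρ N {z | (N * η₀ / 4) ^ 2 ≤ F z} :=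
        measure_union_le _ _
    _ ≤ ENNReal.ofReal (2 / ρ ^ 2 * Real.log N / N) +
        ENNReal.ofReal (16 * C / η₀ ^ 2 * Real.log N / N) := add_le_add hU hE
    _ = ENNReal.ofReal (2 / ρ ^ 2 * Real.log N / N + 16 * C / η₀ ^ 2 * Real.log N / N) := by
        rw [ENNReal.ofReal_add (by positivity) (by positivity)]
    _ ≤ _ := by
        apply ENNReal.ofReal_le_ofReal
        have h1 : 0 ≤ 16 / (ρ ^ 2 * η₀) := by positivity
        have h2 : 2 / ρ ^ 2 + 16 * C / η₀ ^ 2 ≤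
            16 * C / η₀ ^ 2 + 2 / ρ ^ 2 + 16 / (ρ ^ 2 * η₀) := by linarith
        rw [← add_div, ← add_mul]
        exact div_le_div_of_nonneg_right (mul_le_mul_of_nonneg_right h2 (by linarith)) hN0.le

end Pool.Agent.W90.RR.AR2
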